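import Pool.Agent.Helper10.Fam.Stmts

set_option autoImplicit false

namespace Pool.Agent.Helper10.Fam

/-- table lookup -/
theorem st_GET : ST_GET := by
  intro α f T
  induction T with
  | nil => intro _ k a h; simp [BT.get] at h
  | node b l r ihl ihr =>
    intro hall k a h
    simp only [BT.all, Bool.and_eq_true] at hall
    obtain ⟨⟨h1, h2⟩, h3⟩ := hall
    unfold BT.get at h
    split_ifs at h
    · cases h; exact h1
    · exact ihl h2 _ _ h
    · exact ihr h3 _ _ h

end Pool.Agent.Helper10.Fam
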