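import Pool.Agent.Helper10.Fam.Stmts

set_option autoImplicit false

namespace Pool.Agent.Helper10.Fam

/-- the weight function -/
theorem st_PSF : ST_PSF := by
  intro c
  refine ⟨?_, ?_, ?_⟩
  · unfold psF pp
    refine Measurable.ite measurableSet_Iic measurable_const ?_
    exact ((measurable_const.max (measurable_const.sub (measurable_const.div measurable_id))).pow_const 2)
  · intro r
    unfold psF pp
    split_ifs
    · exact le_rfl
    · exact sq_nonneg _
  · intro u hu
    unfold psF
    have h : ¬ (1 / u ≤ 0) := not_le.mpr (by positivity)
    rw [if_neg h, one_div_one_div]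

end Pool.Agent.Helper10.Fam
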