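import Pool.Agent.Helper10.Fam.Stmts

set_option autoImplicit false

namespace Pool.Agent.Helper10.Fam

theorem upv_fsum (hA : ST_LSTA) (c s : ℕ) (V : List ℕ) (W : List (List ℕ)) :
    ((fsum c s V W : ℕ) : ℝ) / 1000000
      = (W.map fun w => (max 0 ((c : ℝ) / 1000 * s - dx w (fn V))) ^ 2).sum := by
  induction W with
  | nil => simp [fsum]
  | cons w t ih =>
    simp only [fsum, List.map_cons, List.sum_cons]
    rw [← ih, ← hA.dn_eq]
    have key : (((c * s - 1000 * dn w V : ℕ)) : ℝ) = 1000 * max 0 ((c : ℝ) / 1000 * s - (dn w V : ℕ)) := by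
      rcases le_total (1000 * dn w V) (c * s) with h | h
      · rw [Nat.cast_sub h]
        have h' : ((1000 * dn w V : ℕ) : ℝ) ≤ ((c * s : ℕ) : ℝ) := by exact_mod_cast h
        push_cast at h' ⊢
        rw [max_eq_right (by linarith)]
        ring
      · rw [Nat.sub_eq_zero_of_le h]
        have h' : ((c * s : ℕ) : ℝ) ≤ ((1000 * dn w V : ℕ) : ℝ) := by exact_mod_cast h
        push_cast at h' ⊢
        rw [max_eq_left (by linarith)]
        ring
    rw [Nat.cast_add, Nat.cast_mul, key]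
    ring

/-- the vertex test -/
theorem st_UPV (hA : ST_LSTA) (hC : ST_LSTC) : ST_UPV := by
  intro D Mn v hd hv hu
  simp only [vOK, Bool.and_eq_true, Nat.beq_eq] at hv
  obtain ⟨_, hnu⟩ := hv
  simp only [upV, Nat.ble_eq] at hu
  have hnu' : bl D.H (fn v.v) (fn v.v) = (v.nu : ℝ) := by
    rw [← hC.mv_fn, hnu, hA.dn_comm, hA.dn_eq]
  rw [← upv_fsum hA, hnu']
  set F := fsum D.c v.s v.v D.W with hF
  have hd' : (0 : ℝ) < D.d := by exact_mod_cast hd
  have h1 : (1000 * (F : ℝ)) ^ 2 * D.d ≤ (Mn * 1000000 * v.s) ^ 2 * v.nu := by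
    have := (Nat.cast_le (α := ℝ)).mpr hu
    push_cast at this
    nlinarith [this]
  have h2 : (1000 * (F : ℝ)) ^ 2 ≤ (Mn * 1000000 * v.s) ^ 2 * ((v.nu : ℝ) / D.d) := by
    rw [← mul_div_assoc, le_div_iff₀ hd']
    exact h1
  have h3 : 1000 * (F : ℝ) ≤ Mn * 1000000 * v.s * Real.sqrt ((v.nu : ℝ) / D.d) := by
    have h4 : (Mn * 1000000 * v.s : ℝ) * Real.sqrt ((v.nu : ℝ) / D.d)
        = Real.sqrt ((Mn * 1000000 * v.s) ^ 2 * ((v.nu : ℝ) / D.d)) := by
      rw [Real.sqrt_mul (sq_nonneg _), Real.sqrt_sq (by positivity)]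
    rw [h4]
    exact Real.le_sqrt_of_sq_le h2
  linarith [h3]

end Pool.Agent.Helper10.Fam
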