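import Pool.Agent.Helper10.Fam.Stmts2

/-!
B8: the Bourbaki simple roots have the Gram matrix of `E₈` and span the lattice `E₈`.
-/

set_option autoImplicit false

namespace Pool.Agent.Helper10.Fam

open Pool.Agent.Helper10.Lor
open scoped BigOperators

lemma b8_gram (i j : Fin 8) : inner ℝ (b8 i) (b8 j) = (CartanMatrix.E₈ i j : ℝ) := by
  rw [PiLp.inner_apply, Fin.sum_univ_eight]
  fin_cases i <;> fin_cases j <;> simp [b8, CartanMatrix.E₈] <;> norm_num

lemma b8_mem (i : Fin 8) : b8 i ∈ E8 := by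
  fin_cases i
  · refine ⟨Or.inr fun i => ?_, -1, ?_⟩
    · fin_cases i
      · refine ⟨0, ?_⟩
        simp [b8]
      all_goals first
        | (refine ⟨0, ?_⟩; simp [b8]; done)
        | (refine ⟨-1, ?_⟩; simp [b8]; norm_num; done)
    · simp [b8, Fin.sum_univ_eight]; norm_num
  · refine ⟨Or.inl fun i => ?_, 1, ?_⟩
    · fin_cases i <;> first
        | (refine ⟨0, ?_⟩; simp [b8]; done)
        | (refine ⟨1, ?_⟩; simp [b8]; done)
        | (refine ⟨-1, ?_⟩; simp [b8]; done)
    · simp [b8, Fin.sum_univ_eight]; norm_num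
  all_goals
    refine ⟨Or.inl fun i => ?_, 0, ?_⟩
    · fin_cases i <;> first
        | (refine ⟨0, ?_⟩; simp [b8]; done)
        | (refine ⟨1, ?_⟩; simp [b8]; done)
        | (refine ⟨-1, ?_⟩; simp [b8]; done)
    · simp [b8, Fin.sum_univ_eight]

lemma b8_int (x : E 8) (hx : ∀ i, ∃ m : ℤ, x i = m) (hs : ∃ m : ℤ, ∑ i, x i = 2 * m) :
    x ∈ latOf b8 := by
  choose n hn using hx
  obtain ⟨m, hm⟩ := hs
  have hm' : (n 0 : ℝ) + n 1 + n 2 + n 3 + n 4 + n 5 + n 6 + n 7 = 2 * m := by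
    rw [← hm, Fin.sum_univ_eight, hn, hn, hn, hn, hn, hn, hn, hn]
  let c : Fin 8 → ℤ := ![2 * n 7, m + 2 * n 7, m + 3 * n 7 - n 0,
    n 2 + n 3 + n 4 + n 5 + n 6 + 5 * n 7, n 3 + n 4 + n 5 + n 6 + 4 * n 7,
    n 4 + n 5 + n 6 + 3 * n 7, n 5 + n 6 + 2 * n 7, n 6 + n 7]
  have hc : x = ∑ i, c i • b8 i := by
    ext i
    rw [WithLp.ofLp_sum, Finset.sum_apply, Fin.sum_univ_eight]
    rw [hn i]
    fin_cases i <;> simp [c, b8] <;> linarith
  rw [hc]
  apply AddSubgroup.sum_mem
  intro i _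
  exact AddSubgroup.zsmul_mem _ (AddSubgroup.subset_closure (Set.mem_range_self i)) _

theorem st_B8 : ST_B8 := by
  refine ⟨b8_gram, le_antisymm ?_ ?_⟩
  · unfold latOf
    rw [AddSubgroup.closure_le]
    rintro _ ⟨i, rfl⟩
    exact b8_mem i
  · rintro x ⟨hx | hx, hs⟩
    · exact b8_int x hx hs
    · have h0 : b8 0 ∈ E8 := b8_mem 0
      have h1 : x - b8 0 ∈ latOf b8 := by
        obtain ⟨_, hs2⟩ := h0
        apply b8_int
        · intro i
          obtain ⟨m, hm⟩ := hx i
          rw [PiLp.sub_apply, hm]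
          fin_cases i
          · refine ⟨m, ?_⟩
            simp [b8]
          all_goals first
            | (refine ⟨m, ?_⟩; simp [b8]; done)
            | (refine ⟨m + 1, ?_⟩; simp [b8]; ring; done)
        · obtain ⟨a, ha⟩ := hs
          obtain ⟨b, hb⟩ := hs2
          refine ⟨a - b, ?_⟩
          simp only [PiLp.sub_apply]
          rw [Finset.sum_sub_distrib, ha, hb]
          push_cast
          ring
      have h2 : x = (x - b8 0) + b8 0 := by abel
      rw [h2]
      exact AddSubgroup.add_mem _ h1 (AddSubgroup.subset_closure (Set.mem_range_self 0))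

end Pool.Agent.Helper10.Fam
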