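import Pool.Agent.Helper10.Fam.Stmts2

/-!
ISO8: two systems with the Gram matrix of `E₈` are isometric.
-/

set_option autoImplicit false

namespace Pool.Agent.Helper10.Fam

open Pool.Agent.Helper10.Lor
open scoped BigOperators

lemma iso8_li (β : Fin 8 → E 8)
    (h : ∀ i j : Fin 8, inner ℝ (β i) (β j) = (CartanMatrix.E₈ i j : ℝ)) :
    LinearIndependent ℝ β := by
  rw [Fintype.linearIndependent_iff]
  intro g hg
  have h1 : Matrix.vecMul g ((CartanMatrix.E₈).map (Int.castRingHom ℝ)) = 0 := by
    ext j
    have h2 : inner ℝ (∑ i, g i • β i) (β j) = 0 := by rw [hg, inner_zero_left]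
    rw [sum_inner] at h2
    rw [Matrix.vecMul, dotProduct]
    rw [Pi.zero_apply, ← h2]
    apply Finset.sum_congr rfl
    intro i _
    rw [real_inner_smul_left, h i j]
    rfl
  have h3 : ((CartanMatrix.E₈).map (Int.castRingHom ℝ)).det ≠ 0 := by
    rw [← RingHom.mapMatrix_apply, ← RingHom.map_det, CartanMatrix.E₈_det]
    simp
  have h4 := Matrix.eq_zero_of_vecMul_eq_zero h3 h1
  intro i
  rw [h4]
  rfl

theorem st_ISO8 : ST_ISO8 := by
  intro hb β hβ
  have hcard : Fintype.card (Fin 8) = Module.finrank ℝ (E 8) := by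
    rw [finrank_euclideanSpace]
  let B := basisOfLinearIndependentOfCardEqFinrank (iso8_li b8 hb) hcard
  let C := basisOfLinearIndependentOfCardEqFinrank (iso8_li β hβ) hcard
  have hB : ∀ i, B i = b8 i := fun i => by
    rw [coe_basisOfLinearIndependentOfCardEqFinrank]
  have hC : ∀ i, C i = β i := fun i => by
    rw [coe_basisOfLinearIndependentOfCardEqFinrank]
  let f : E 8 ≃ₗ[ℝ] E 8 := B.equiv C (Equiv.refl _)
  have hf : ∀ i, f (b8 i) = β i := by
    intro i
    rw [← hB i, ← hC i]
    exact B.equiv_apply i C (Equiv.refl _)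
  have hinner : ∀ x y : E 8, inner ℝ (f x) (f y) = inner ℝ x y := by
    intro x y
    rw [← B.sum_repr x, ← B.sum_repr y]
    simp only [map_sum, map_smul, hB, hf]
    rw [sum_inner, sum_inner]
    apply Finset.sum_congr rfl
    intro i _
    rw [inner_sum, inner_sum]
    apply Finset.sum_congr rfl
    intro j _
    rw [real_inner_smul_left, real_inner_smul_right, real_inner_smul_left,
      real_inner_smul_right, hb i j, hβ i j]
  exact ⟨f.isometryOfInner hinner, fun i => hf i⟩

end Pool.Agent.Helper10.Fam
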